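import Pool.Agent.W593.IR.Stm3

set_option autoImplicit false

namespace Pool.Agent.W100.IR

open Pool.Agent.W593.IR

theorem posq {t c0 c1 c2 c3 c4 c5 : ℝ} (h0 : 0 ≤ t) (h1 : t ≤ 1 / 40) (hc : 0 ≤ c0)
    (h : |c2| + |c3| + |c4| + |c5| ≤ 40 * c1) :
    0 ≤ c0 + c1 * t + c2 * t ^ 2 + c3 * t ^ 3 + c4 * t ^ 4 + c5 * t ^ 5 := by
  have e2 : t ^ 2 ≤ t / 40 := by nlinarith
  have p2 : 0 ≤ t ^ 2 := by positivity
  have p3 : 0 ≤ t ^ 3 := by positivity
  have p4 : 0 ≤ t ^ 4 := by positivity
  have p5 : 0 ≤ t ^ 5 := by positivity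
  have e3 : t ^ 3 ≤ t ^ 2 := by nlinarith
  have e4 : t ^ 4 ≤ t ^ 2 := by nlinarith
  have e5 : t ^ 5 ≤ t ^ 2 := by nlinarith
  have a2 : -|c2| * (t / 40) ≤ c2 * t ^ 2 := by
    have := neg_abs_le c2
    have h3 : 0 ≤ |c2| := abs_nonneg _
    nlinarith [mul_le_mul_of_nonneg_left e2 h3, mul_le_mul_of_nonneg_right this p2]
  have a3 : -|c3| * (t / 40) ≤ c3 * t ^ 3 := by
    have := neg_abs_le c3
    have h3 : 0 ≤ |c3| := abs_nonneg _
    nlinarith [mul_le_mul_of_nonneg_left (e3.trans e2) h3, mul_le_mul_of_nonneg_right this p3]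
  have a4 : -|c4| * (t / 40) ≤ c4 * t ^ 4 := by
    have := neg_abs_le c4
    have h3 : 0 ≤ |c4| := abs_nonneg _
    nlinarith [mul_le_mul_of_nonneg_left (e4.trans e2) h3, mul_le_mul_of_nonneg_right this p4]
  have a5 : -|c5| * (t / 40) ≤ c5 * t ^ 5 := by
    have := neg_abs_le c5
    have h3 : 0 ≤ |c5| := abs_nonneg _
    nlinarith [mul_le_mul_of_nonneg_left (e5.trans e2) h3, mul_le_mul_of_nonneg_right this p5]
  have h6 := mul_le_mul_of_nonneg_right h (by positivity : 0 ≤ t / 40)
  nlinarith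

theorem ph5_2 (ρ : ℝ) : Ph 5 2 ρ = (1) * ρ ^ 0 + (0) * ρ ^ 1 + (0) * ρ ^ 2 + (0) * ρ ^ 3 + (-5 / 2) * ρ ^ 4 + (7 / 4) * ρ ^ 5 := by
  unfold Ph
  simp only [Finset.sum_range_succ, Finset.sum_range_zero]
  norm_num [Nat.choose]
  ring

theorem a5_2 (ρ : ℝ) (h1 : 8 / 9 ≤ ρ) (h2 : ρ ≤ 913236 / 1000000) : (1 - ρ / 5) ^ 5 ≤ Ph 5 2 ρ := by
  have h := posq (t := (913236 / 1000000 - ρ)) (c0 := (96774939336403049274602171571 / 12207031250000000000000000000000)) (c1 := (10585562889670032186650681 / 9765625000000000000000000)) (c2 := (11723853446477914891 / 19531250000000000000))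
    (c3 := (-430944148644799 / 78125000000000)) (c4 := (3427672611 / 625000000)) (c5 := (-21879 / 12500)) (by linarith) (by linarith)
    (by norm_num) (by norm_num [abs_of_nonneg, abs_of_neg])
  have e : Ph 5 2 ρ - ((1 - ρ / 5) ^ 5) = (96774939336403049274602171571 / 12207031250000000000000000000000) + (10585562889670032186650681 / 9765625000000000000000000) * (913236 / 1000000 - ρ) + (11723853446477914891 / 19531250000000000000) * (913236 / 1000000 - ρ) ^ 2 +
      (-430944148644799 / 78125000000000) * (913236 / 1000000 - ρ) ^ 3 + (3427672611 / 625000000) * (913236 / 1000000 - ρ) ^ 4 + (-21879 / 12500) * (913236 / 1000000 - ρ) ^ 5 := by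
    rw [ph5_2]
    ring
  linarith

theorem b5_2 (ρ : ℝ) (h1 : 913236 / 1000000 ≤ ρ) (h2 : ρ ≤ 25 / 27) : 1 - ρ ^ 5 ≤ Ph 5 2 ρ := by
  have h := posq (t := (ρ - 913236 / 1000000)) (c0 := (30971260492623558820446039 / 3906250000000000000000000000)) (c1 := (6085958266821494962971 / 3125000000000000000000)) (c2 := (52719172350083919 / 6250000000000000))
    (c3 := (345065994291 / 25000000000)) (c4 := (2011399 / 200000)) (c5 := (11 / 4)) (by linarith) (by linarith)
    (by norm_num) (by norm_num [abs_of_nonneg, abs_of_neg])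
  have e : Ph 5 2 ρ - (1 - ρ ^ 5) = (30971260492623558820446039 / 3906250000000000000000000000) + (6085958266821494962971 / 3125000000000000000000) * (ρ - 913236 / 1000000) + (52719172350083919 / 6250000000000000) * (ρ - 913236 / 1000000) ^ 2 +
      (345065994291 / 25000000000) * (ρ - 913236 / 1000000) ^ 3 + (2011399 / 200000) * (ρ - 913236 / 1000000) ^ 4 + (11 / 4) * (ρ - 913236 / 1000000) ^ 5 := by
    rw [ph5_2]
    ring
  linarith

theorem ph5_3 (ρ : ℝ) : Ph 5 3 ρ = (1) * ρ ^ 0 + (0) * ρ ^ 1 + (0) * ρ ^ 2 + (-10 / 3) * ρ ^ 3 + (35 / 9) * ρ ^ 4 + (-34 / 27) * ρ ^ 5 := by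
  unfold Ph
  simp only [Finset.sum_range_succ, Finset.sum_range_zero]
  norm_num [Nat.choose]
  ring

theorem a5_3 (ρ : ℝ) (h1 : 8 / 9 ≤ ρ) (h2 : ρ ≤ 913236 / 1000000) : (1 - ρ / 5) ^ 5 ≤ Ph 5 3 ρ := by
  have h := posq (t := (913236 / 1000000 - ρ)) (c0 := (4455004824422490380624546799 / 3051757812500000000000000000000)) (c1 := (1038574045220706413049389 / 2441406250000000000000000)) (c2 := (2530343618231763879 / 4882812500000000000))
    (c3 := (-24831042792193 / 58593750000000)) (c4 := (-2626388969 / 1406250000)) (c5 := (106223 / 84375)) (by linarith) (by linarith)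
    (by norm_num) (by norm_num [abs_of_nonneg, abs_of_neg])
  have e : Ph 5 3 ρ - ((1 - ρ / 5) ^ 5) = (4455004824422490380624546799 / 3051757812500000000000000000000) + (1038574045220706413049389 / 2441406250000000000000000) * (913236 / 1000000 - ρ) + (2530343618231763879 / 4882812500000000000) * (913236 / 1000000 - ρ) ^ 2 +
      (-24831042792193 / 58593750000000) * (913236 / 1000000 - ρ) ^ 3 + (-2626388969 / 1406250000) * (913236 / 1000000 - ρ) ^ 4 + (106223 / 84375) * (913236 / 1000000 - ρ) ^ 5 := by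
    rw [ph5_3]
    ring
  linarith

theorem b5_3 (ρ : ℝ) (h1 : 913236 / 1000000 ≤ ρ) (h2 : ρ ≤ 25 / 27) : 1 - ρ ^ 5 ≤ Ph 5 3 ρ := by
  have h := posq (t := (ρ - 913236 / 1000000)) (c0 := (1426421520058842684943191 / 976562500000000000000000000)) (c1 := (2035990903408350263499 / 781250000000000000000)) (c2 := (13051594769636911 / 1562500000000000))
    (c3 := (163318833737 / 18750000000)) (c4 := (1217279 / 450000)) (c5 := (-7 / 27)) (by linarith) (by linarith)
    (by norm_num) (by norm_num [abs_of_nonneg, abs_of_neg])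
  have e : Ph 5 3 ρ - (1 - ρ ^ 5) = (1426421520058842684943191 / 976562500000000000000000000) + (2035990903408350263499 / 781250000000000000000) * (ρ - 913236 / 1000000) + (13051594769636911 / 1562500000000000) * (ρ - 913236 / 1000000) ^ 2 +
      (163318833737 / 18750000000) * (ρ - 913236 / 1000000) ^ 3 + (1217279 / 450000) * (ρ - 913236 / 1000000) ^ 4 + (-7 / 27) * (ρ - 913236 / 1000000) ^ 5 := by
    rw [ph5_3]
    ring
  linarith

theorem ph5_4 (ρ : ℝ) : Ph 5 4 ρ = (1) * ρ ^ 0 + (0) * ρ ^ 1 + (-5 / 2) * ρ ^ 2 + (25 / 8) * ρ ^ 3 + (-105 / 64) * ρ ^ 4 + (85 / 256) * ρ ^ 5 := by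
  unfold Ph
  simp only [Finset.sum_range_succ, Finset.sum_range_zero]
  norm_num [Nat.choose]
  ring

theorem a5_4 (ρ : ℝ) (h1 : 8 / 9 ≤ ρ) (h2 : ρ ≤ 913236 / 1000000) : (1 - ρ / 5) ^ 5 ≤ Ph 5 4 ρ := by
  have h := posq (t := (913236 / 1000000 - ρ)) (c0 := (69692116070389377005103708669 / 781250000000000000000000000000000)) (c1 := (90400967183498221752027959 / 625000000000000000000000000)) (c2 := (202951061233119906149 / 1250000000000000000000))
    (c3 := (227627022992239 / 5000000000000000)) (c4 := (-5241974771 / 40000000000)) (c5 := (-265881 / 800000)) (by linarith) (by linarith)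
    (by norm_num) (by norm_num [abs_of_nonneg, abs_of_neg])
  have e : Ph 5 4 ρ - ((1 - ρ / 5) ^ 5) = (69692116070389377005103708669 / 781250000000000000000000000000000) + (90400967183498221752027959 / 625000000000000000000000000) * (913236 / 1000000 - ρ) + (202951061233119906149 / 1250000000000000000000) * (913236 / 1000000 - ρ) ^ 2 +
      (227627022992239 / 5000000000000000) * (913236 / 1000000 - ρ) ^ 3 + (-5241974771 / 40000000000) * (913236 / 1000000 - ρ) ^ 4 + (-265881 / 800000) * (913236 / 1000000 - ρ) ^ 5 := by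
    rw [ph5_4]
    ring
  linarith

theorem b5_4 (ρ : ℝ) (h1 : 913236 / 1000000 ≤ ρ) (h2 : ρ ≤ 25 / 27) : 1 - ρ ^ 5 ≤ Ph 5 4 ρ := by
  have h := posq (t := (ρ - 913236 / 1000000)) (c0 := (22511391060897916006327209 / 250000000000000000000000000000)) (c1 := (577365347558298505852101 / 200000000000000000000000)) (c2 := (3198866851416101489 / 400000000000000000))
    (c3 := (13185646823021 / 1600000000000)) (c4 := (56853369 / 12800000)) (c5 := (341 / 256)) (by linarith) (by linarith)
    (by norm_num) (by norm_num [abs_of_nonneg, abs_of_neg])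
  have e : Ph 5 4 ρ - (1 - ρ ^ 5) = (22511391060897916006327209 / 250000000000000000000000000000) + (577365347558298505852101 / 200000000000000000000000) * (ρ - 913236 / 1000000) + (3198866851416101489 / 400000000000000000) * (ρ - 913236 / 1000000) ^ 2 +
      (13185646823021 / 1600000000000) * (ρ - 913236 / 1000000) ^ 3 + (56853369 / 12800000) * (ρ - 913236 / 1000000) ^ 4 + (341 / 256) * (ρ - 913236 / 1000000) ^ 5 := by
    rw [ph5_4]
    ring
  linarith

theorem ph5 : S_PH5 := by
  intro ρ h1 h2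
  rcases le_total ρ (913236 / 1000000) with h | h
  · exact ⟨(min_le_right _ _).trans (by simpa using a5_2 ρ h1 h),
      (min_le_right _ _).trans (by simpa using a5_3 ρ h1 h),
      (min_le_right _ _).trans (by simpa using a5_4 ρ h1 h)⟩
  · exact ⟨(min_le_left _ _).trans (b5_2 ρ h h2), (min_le_left _ _).trans (b5_3 ρ h h2),
      (min_le_left _ _).trans (b5_4 ρ h h2)⟩

end Pool.Agent.W100.IR
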